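import Pool.Agent.P.MP_471da3_lc.D.Req

/-!
A minimal pair of uniformly almost everywhere dominating degrees, one d.c.e. and one c.e.
-/

open MeasureTheory

namespace Pool.Agent.Results.MP_471da3_lc.CEDCEPair

/-- One function of the Turing degree of `A` dominates every `X`-computable function, for almost
every `X`. -/
def UAEDom (A : ℕ → Bool) : Prop :=
  ∃ f : ℕ → ℕ, TuringEquivalent (PFun.lift f) (PFun.lift (fun n => (A n).toNat)) ∧
    ∀ᵐ X ∂(Measure.infinitePi (fun _ : ℕ => (PMF.uniformOfFintype Bool).toMeasure)),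
      ∀ g : ℕ → ℕ, TuringReducible (PFun.lift g) (PFun.lift (fun n => (X n).toNat)) →
        ∀ᶠ n in Filter.atTop, g n < f n

/-- `A` is the difference of two c.e. sets. -/
def DCE (A : ℕ → Bool) : Prop :=
  ∃ U W : ℕ → Prop, REPred U ∧ REPred W ∧ ∀ n, A n = true ↔ U n ∧ ¬W n

theorem result : ∃ A B : ℕ → Bool, DCE A ∧ REPred (fun n => B n = true) ∧
    UAEDom A ∧ UAEDom B ∧ ¬Computable A ∧ ¬Computable B ∧
    ∀ C : ℕ → ℕ, TuringReducible (PFun.lift C) (PFun.lift (fun n => (A n).toNat)) →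
      TuringReducible (PFun.lift C) (PFun.lift (fun n => (B n).toNat)) → Computable C := by
  obtain ⟨A, B, h1, h2, h3, h4, h5⟩ := Pool.Agent.P.MP_471da3_lc.D.main
  exact ⟨A, B, h1, h2, h3, h4, h3.not_computable, h4.not_computable, h5⟩

end Pool.Agent.Results.MP_471da3_lc.CEDCEPair
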