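import Pool.Agent.P.MP_471da3_lc.Main

/-!
No minimal pair of almost everywhere dominating c.e. degrees.
-/

open MeasureTheory

namespace Pool.Agent.Results.MP_471da3_lc.NoCEPair

/-- For almost every `X`, every `X`-computable function is eventually bounded by an
`A`-computable function. -/
def AEDom (A : ℕ → ℕ) : Prop :=
  ∀ᵐ X ∂(Measure.infinitePi (fun _ : ℕ => (PMF.uniformOfFintype Bool).toMeasure)),
    ∀ g : ℕ → ℕ, TuringReducible (PFun.lift g) (PFun.lift (fun n => (X n).toNat)) →
      ∃ f : ℕ → ℕ, TuringReducible (PFun.lift f) (PFun.lift A) ∧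
        ∀ᶠ n in Filter.atTop, g n ≤ f n

/-- `A` is Turing equivalent to the characteristic function of a c.e. set. -/
def CEDegree (A : ℕ → ℕ) : Prop :=
  ∃ W : ℕ → Bool, REPred (fun n => W n = true) ∧
    TuringEquivalent (PFun.lift A) (PFun.lift (fun n => (W n).toNat))

theorem result (A B : ℕ → ℕ) (hA : CEDegree A) (hB : CEDegree B) (dA : AEDom A) (dB : AEDom B) :
    ∃ C : ℕ → ℕ, CEDegree C ∧ ¬ Computable C ∧
      TuringReducible (PFun.lift C) (PFun.lift A) ∧ TuringReducible (PFun.lift C) (PFun.lift B) := by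
  obtain ⟨V, a1, a2⟩ := hA
  obtain ⟨W, b1, b2⟩ := hB
  have dom : ∀ (D : ℕ → ℕ) (U : ℕ → Bool), AEDom D →
      TuringReducible (PFun.lift D) (PFun.lift (fun n => (U n).toNat)) →
      Pool.Agent.P.MP_471da3_lc.Dom U := by
    intro D U h1 h2
    refine Filter.Eventually.mono h1 fun X hX f hf => ?_
    obtain ⟨h, c1, c2⟩ := hX f hf
    exact ⟨h, c1.trans h2, c2⟩
  obtain ⟨E, e1, e2, e3⟩ := Pool.Agent.P.MP_471da3_lc.no_pair (W := fun S => cond S W V)
    (fun S => by cases S; exacts [a1, b1])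
    (fun S => by cases S; exacts [dom A V dA a2.1, dom B W dB b2.1])
  refine ⟨fun n => (E n).toNat, ⟨E, e1, TuringEquivalent.refl _⟩, fun h => e2 ?_,
    TuringReducible.trans (e3 false) a2.2, TuringReducible.trans (e3 true) b2.2⟩
  refine ((Pool.Agent.Lib.Comp.pr_eqb Primrec.id (Primrec.const 1)).to_comp.comp h).of_eq
    fun n => ?_
  cases E n <;> rfl

end Pool.Agent.Results.MP_471da3_lc.NoCEPair
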